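import Mathlib

/-!
Ruzsa numbers: what R_m at most 7 means.

For a subset A of Z_m write sig A n and dif A n for the numbers of ordered pairs of
elements of A with sum n and with difference n.  The exact identity
  sum_n (sig - 2)(sig - 6) + 7|A| - 12 = sum_(n <> 0) (dif - 3)(dif - 4)
(energy of sums = energy of differences, and dif A 0 = |A|) makes every A with all
sig at most 7 and few uncovered residues a near difference set.
-/

namespace Pool.Agent.Results.MP_70f15f_nt.NearDesign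

open Finset

/-- `sig A n`: number of ordered pairs of elements of `A` with sum `n`. -/
def sig {m : ℕ} (A : Finset (ZMod m)) (n : ZMod m) : ℕ :=
  ((A ×ˢ A).filter (fun p => p.1 + p.2 = n)).card

/-- `dif A n`: number of ordered pairs of elements of `A` with difference `n`. -/
def dif {m : ℕ} (A : Finset (ZMod m)) (n : ZMod m) : ℕ :=
  ((A ×ˢ A).filter (fun p => p.1 - p.2 = n)).card

/-- The Ruzsa number `R_m`. -/
noncomputable def ruzsa (m : ℕ) : ℕ :=
  sInf {r : ℕ | 0 < r ∧ ∃ A : Finset (ZMod m), ∀ n : ZMod m, 1 ≤ sig A n ∧ sig A n ≤ r}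

lemma pt1 (t : ℕ) : 2 * (if t ≠ 3 ∧ t ≠ 4 then (1 : ℤ) else 0)
    ≤ ((t : ℤ) - 3) * ((t : ℤ) - 4) := by
  rcases lt_or_ge t 5 with h | h
  · interval_cases t <;> simp
  · have h' : (5 : ℤ) ≤ t := by exact_mod_cast h
    have h2 : (2 : ℤ) ≤ ((t : ℤ) - 3) * ((t : ℤ) - 4) := by
      nlinarith [mul_nonneg (sub_nonneg.2 h') (sub_nonneg.2 h')]
    split_ifs <;> linarith

lemma pt2 (t : ℕ) : 2 * ((t : ℤ) - 4) ≤ ((t : ℤ) - 3) * ((t : ℤ) - 4) := by
  rcases lt_or_ge t 5 with h | h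
  · interval_cases t <;> simp
  · have h' : (5 : ℤ) ≤ t := by exact_mod_cast h
    nlinarith [mul_nonneg (sub_nonneg.2 h') (sub_nonneg.2 h')]

lemma pt3 (t : ℕ) : ((t : ℤ) - 3) - (if t = 4 then (1 : ℤ) else 0)
    ≤ ((t : ℤ) - 3) * ((t : ℤ) - 4) := by
  rcases lt_or_ge t 5 with h | h
  · interval_cases t <;> simp
  · have h' : (5 : ℤ) ≤ t := by exact_mod_cast h
    have h2 : ((t : ℤ) - 3) ≤ ((t : ℤ) - 3) * ((t : ℤ) - 4) := by
      nlinarith [mul_nonneg (sub_nonneg.2 h') (sub_nonneg.2 h')]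
    split_ifs <;> linarith

lemma pt4 (t : ℕ) : 2 * ((if t = 4 then (1 : ℤ) else 0) - ((t : ℤ) - 3))
    ≤ ((t : ℤ) - 3) * ((t : ℤ) - 4) := by
  rcases lt_or_ge t 5 with h | h
  · interval_cases t <;> simp
  · have h' : (5 : ℤ) ≤ t := by exact_mod_cast h
    have h2 : (0 : ℤ) ≤ ((t : ℤ) - 3) * ((t : ℤ) - 4) := by
      nlinarith [mul_nonneg (sub_nonneg.2 h') (sub_nonneg.2 h')]
    split_ifs <;> linarith

section basic

variable {m : ℕ} [NeZero m] (A : Finset (ZMod m))

lemma sum_sig : ∑ n : ZMod m, sig A n = A.card * A.card := by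
  classical
  rw [← card_product]
  unfold sig
  exact (card_eq_sum_card_fiberwise (f := fun p : ZMod m × ZMod m => p.1 + p.2)
    (t := (univ : Finset (ZMod m))) (fun _ _ => mem_coe.2 (mem_univ _))).symm

lemma sum_dif : ∑ n : ZMod m, dif A n = A.card * A.card := by
  classical
  rw [← card_product]
  unfold dif
  exact (card_eq_sum_card_fiberwise (f := fun p : ZMod m × ZMod m => p.1 - p.2)
    (t := (univ : Finset (ZMod m))) (fun _ _ => mem_coe.2 (mem_univ _))).symm

omit [NeZero m] in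
lemma dif_zero : dif A 0 = A.card := by
  classical
  unfold dif
  have h : (A ×ˢ A).filter (fun p => p.1 - p.2 = 0) = A.image (fun a => (a, a)) := by
    ext ⟨a, b⟩
    simp only [mem_filter, mem_product, mem_image, Prod.mk.injEq, sub_eq_zero]
    constructor
    · rintro ⟨⟨ha, _⟩, hab⟩
      exact ⟨a, ha, rfl, hab⟩
    · rintro ⟨c, hc, rfl, rfl⟩
      exact ⟨⟨hc, hc⟩, rfl⟩
  rw [h, card_image_of_injective]
  intro a b hab
  exact (Prod.mk.inj hab).1

omit [NeZero m] in
lemma sig_eq (n : ZMod m) : sig A n = ∑ a ∈ A, ∑ b ∈ A, if a + b = n then 1 else 0 := by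
  classical
  unfold sig
  rw [card_filter, sum_product]

omit [NeZero m] in
lemma dif_eq (n : ZMod m) : dif A n = ∑ a ∈ A, ∑ b ∈ A, if a - b = n then 1 else 0 := by
  classical
  unfold dif
  rw [card_filter, sum_product]

lemma sum_sq_sig : ∑ n : ZMod m, sig A n ^ 2
    = ∑ a ∈ A, ∑ b ∈ A, ∑ c ∈ A, ∑ e ∈ A, if a + b = c + e then 1 else 0 := by
  classical
  have h : ∀ n : ZMod m, sig A n ^ 2
      = ∑ a ∈ A, ∑ b ∈ A, ∑ c ∈ A, ∑ e ∈ A,
          (if a + b = n then 1 else 0) * (if c + e = n then 1 else 0) := by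
    intro n
    rw [sq, sig_eq, sum_mul]
    refine sum_congr rfl fun a _ => ?_
    rw [sum_mul]
    refine sum_congr rfl fun b _ => ?_
    rw [mul_sum]
    refine sum_congr rfl fun c _ => ?_
    rw [mul_sum]
  simp_rw [h]
  rw [sum_comm]
  refine sum_congr rfl fun a _ => ?_
  rw [sum_comm]
  refine sum_congr rfl fun b _ => ?_
  rw [sum_comm]
  refine sum_congr rfl fun c _ => ?_
  rw [sum_comm]
  refine sum_congr rfl fun e _ => ?_
  rw [Finset.sum_eq_single (a + b)]
  · by_cases hab : a + b = c + e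
    · simp [hab]
    · have : ¬ (c + e = a + b) := fun h => hab h.symm
      simp [hab, this]
  · intro n _ hn
    have : ¬ (a + b = n) := fun h => hn h.symm
    simp [this]
  · intro h
    exact absurd (mem_univ _) h

lemma sum_sq_dif : ∑ n : ZMod m, dif A n ^ 2
    = ∑ a ∈ A, ∑ b ∈ A, ∑ c ∈ A, ∑ e ∈ A, if a - b = c - e then 1 else 0 := by
  classical
  have h : ∀ n : ZMod m, dif A n ^ 2
      = ∑ a ∈ A, ∑ b ∈ A, ∑ c ∈ A, ∑ e ∈ A,
          (if a - b = n then 1 else 0) * (if c - e = n then 1 else 0) := by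
    intro n
    rw [sq, dif_eq, sum_mul]
    refine sum_congr rfl fun a _ => ?_
    rw [sum_mul]
    refine sum_congr rfl fun b _ => ?_
    rw [mul_sum]
    refine sum_congr rfl fun c _ => ?_
    rw [mul_sum]
  simp_rw [h]
  rw [sum_comm]
  refine sum_congr rfl fun a _ => ?_
  rw [sum_comm]
  refine sum_congr rfl fun b _ => ?_
  rw [sum_comm]
  refine sum_congr rfl fun c _ => ?_
  rw [sum_comm]
  refine sum_congr rfl fun e _ => ?_
  rw [Finset.sum_eq_single (a - b)]
  · by_cases hab : a - b = c - e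
    · simp [hab]
    · have : ¬ (c - e = a - b) := fun h => hab h.symm
      simp [hab, this]
  · intro n _ hn
    have : ¬ (a - b = n) := fun h => hn h.symm
    simp [this]
  · intro h
    exact absurd (mem_univ _) h

lemma energy : ∑ n : ZMod m, sig A n ^ 2 = ∑ n : ZMod m, dif A n ^ 2 := by
  classical
  rw [sum_sq_sig, sum_sq_dif]
  refine sum_congr rfl fun a _ => ?_
  refine sum_comm.trans ?_
  refine sum_congr rfl fun c _ => ?_
  refine sum_comm.trans ?_
  refine sum_congr rfl fun e _ => ?_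
  refine sum_congr rfl fun b _ => ?_
  have h : (a + b = c + e) ↔ (a - c = e - b) := by
    constructor
    · intro h
      rw [sub_eq_iff_eq_add, sub_add_eq_add_sub, eq_sub_iff_add_eq, h]
      ring
    · intro h
      rw [sub_eq_iff_eq_add, sub_add_eq_add_sub, eq_sub_iff_add_eq] at h
      rw [h]
      ring
  simp only [h]

omit [NeZero m] in
/-- An odd number of representations occurs only at doubles of elements of `A`. -/
lemma odd_sig {n : ZMod m} (h : Odd (sig A n)) : ∃ a ∈ A, a + a = n := by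
  classical
  by_contra hne
  push Not at hne
  have hz : ((sig A n : ℕ) : ZMod 2) = 0 := by
    unfold sig
    rw [card_eq_sum_ones, Nat.cast_sum]
    refine sum_involution (fun p _ => (p.2, p.1)) ?_ ?_ ?_ ?_
    · intro p _
      simp only [Nat.cast_one]
      decide
    · intro p hp _ heq
      rw [mem_filter, mem_product] at hp
      have h1 : p.2 = p.1 := (Prod.ext_iff.1 heq).1
      exact hne p.1 hp.1.1 (by rw [← hp.2, h1])
    · intro p hp
      rw [mem_filter, mem_product] at hp ⊢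
      exact ⟨⟨hp.1.2, hp.1.1⟩, by rw [← hp.2, add_comm]⟩
    · intro p _
      rfl
  rw [ZMod.natCast_eq_zero_iff] at hz
  exact (Nat.not_even_iff_odd.2 h) (even_iff_two_dvd.2 hz)

lemma card_odd : (univ.filter (fun n : ZMod m => Odd (sig A n))).card ≤ A.card := by
  classical
  refine (card_le_card ?_).trans (card_image_le (s := A) (f := fun a => a + a))
  intro n hn
  rw [mem_filter] at hn
  obtain ⟨a, ha, h⟩ := odd_sig A hn.2
  exact mem_image.2 ⟨a, ha, h⟩

/-- The exact identity. -/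
lemma identity :
    ∑ n ∈ univ.erase (0 : ZMod m), ((dif A n : ℤ) - 3) * ((dif A n : ℤ) - 4)
      = ∑ n : ZMod m, ((sig A n : ℤ) - 2) * ((sig A n : ℤ) - 6) + 7 * A.card - 12 := by
  classical
  have hs1 : ∑ n : ZMod m, (sig A n : ℤ) = (A.card : ℤ) * A.card := by
    exact_mod_cast sum_sig A
  have hd1 : ∑ n : ZMod m, (dif A n : ℤ) = (A.card : ℤ) * A.card := by
    exact_mod_cast sum_dif A
  have he : ∑ n : ZMod m, (sig A n : ℤ) ^ 2 = ∑ n : ZMod m, (dif A n : ℤ) ^ 2 := by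
    exact_mod_cast energy A
  have hcard : ∑ _n : ZMod m, (1 : ℤ) = m := by
    simp [ZMod.card]
  have h1 : ∑ n : ZMod m, ((sig A n : ℤ) - 2) * ((sig A n : ℤ) - 6)
      = ∑ n : ZMod m, (sig A n : ℤ) ^ 2 - 8 * ∑ n : ZMod m, (sig A n : ℤ)
        + 12 * ∑ _n : ZMod m, (1 : ℤ) := by
    rw [mul_sum, mul_sum, ← sum_sub_distrib, ← sum_add_distrib]
    refine sum_congr rfl fun n _ => ?_
    ring
  have h2 : ∑ n : ZMod m, ((dif A n : ℤ) - 3) * ((dif A n : ℤ) - 4)
      = ∑ n : ZMod m, (dif A n : ℤ) ^ 2 - 7 * ∑ n : ZMod m, (dif A n : ℤ)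
        + 12 * ∑ _n : ZMod m, (1 : ℤ) := by
    rw [mul_sum, mul_sum, ← sum_sub_distrib, ← sum_add_distrib]
    refine sum_congr rfl fun n _ => ?_
    ring
  have h3 := add_sum_erase (univ : Finset (ZMod m))
    (fun n => ((dif A n : ℤ) - 3) * ((dif A n : ℤ) - 4)) (mem_univ (0 : ZMod m))
  simp only [dif_zero] at h3
  rw [h1, hs1, hcard]
  rw [h2, hd1, hcard, ← he] at h3
  linarith

/-- Sums of a function of `sig` when `sig` is at most 7. -/
lemma sum_by_value (h7 : ∀ n, sig A n ≤ 7) (f : ℕ → ℤ) :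
    ∑ n : ZMod m, f (sig A n)
      = ∑ t ∈ range 8, ((univ.filter (fun n : ZMod m => sig A n = t)).card : ℤ) * f t := by
  classical
  rw [← sum_fiberwise_of_maps_to (s := (univ : Finset (ZMod m))) (t := range 8)
    (g := fun n => sig A n) (fun n _ => mem_range.2 (Nat.lt_succ_of_le (h7 n)))]
  refine sum_congr rfl fun t _ => ?_
  rw [sum_congr rfl (g := fun _ => f t)]
  · rw [sum_const, nsmul_eq_mul]
  · intro n hn
    rw [(mem_filter.1 hn).2]

/-- The main inequalities, in terms of the number of uncovered residues. -/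
lemma near (h7 : ∀ n, sig A n ≤ 7) :
    3 * m + (univ.filter (fun n : ZMod m => n ≠ 0 ∧ dif A n = 4)).card + 3
        ≤ A.card ^ 2 + 5 * A.card + 6 * (univ.filter (fun n : ZMod m => sig A n = 0)).card ∧
    A.card ^ 2 + 15
        ≤ 3 * m + (univ.filter (fun n : ZMod m => n ≠ 0 ∧ dif A n = 4)).card
          + 13 * A.card + 12 * (univ.filter (fun n : ZMod m => sig A n = 0)).card ∧
    2 * m + 4 * (univ.filter (fun n : ZMod m => sig A n = 6)).card
        ≤ A.card ^ 2 + A.card + 2 * (univ.filter (fun n : ZMod m => sig A n = 0)).card ∧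
    A.card ^ 2 + 6
        ≤ 2 * m + 4 * (univ.filter (fun n : ZMod m => sig A n = 6)).card
          + 11 * A.card + 6 * (univ.filter (fun n : ZMod m => sig A n = 0)).card ∧
    A.card ^ 2 + 10
        ≤ 4 * m + 7 * A.card + 6 * (univ.filter (fun n : ZMod m => sig A n = 0)).card ∧
    2 * (univ.filter (fun n : ZMod m => sig A n ≠ 0 ∧ sig A n ≠ 2 ∧ sig A n ≠ 6)).card
        + (univ.filter (fun n : ZMod m => n ≠ 0 ∧ dif A n ≠ 3 ∧ dif A n ≠ 4)).card + 6
        ≤ 8 * A.card + 6 * (univ.filter (fun n : ZMod m => sig A n = 0)).card := by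
  classical
  -- the values of sig
  have hs1 : ∑ n : ZMod m, (sig A n : ℤ) = (A.card : ℤ) * A.card := by
    exact_mod_cast sum_sig A
  have hd1 : ∑ n : ZMod m, (dif A n : ℤ) = (A.card : ℤ) * A.card := by
    exact_mod_cast sum_dif A
  have hcard : ∑ _n : ZMod m, (1 : ℤ) = m := by
    simp [ZMod.card]
  have hodd : ((univ.filter (fun n : ZMod m => Odd (sig A n))).card : ℤ) ≤ A.card := by
    exact_mod_cast card_odd A
  have hodd' : ((univ.filter (fun n : ZMod m => Odd (sig A n))).card : ℤ)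
      = ∑ n : ZMod m, (fun t : ℕ => if Odd t then (1 : ℤ) else 0) (sig A n) := by
    rw [card_filter]
    push_cast
    rfl
  have hexc : ((univ.filter
      (fun n : ZMod m => sig A n ≠ 0 ∧ sig A n ≠ 2 ∧ sig A n ≠ 6)).card : ℤ)
      = ∑ n : ZMod m,
          (fun t : ℕ => if t ≠ 0 ∧ t ≠ 2 ∧ t ≠ 6 then (1 : ℤ) else 0) (sig A n) := by
    rw [card_filter]
    push_cast
    rfl
  have hodd2 := hodd'.trans (sum_by_value A h7 (fun t : ℕ => if Odd t then (1 : ℤ) else 0))
  have hexc2 := hexc.trans (sum_by_value A h7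
    (fun t : ℕ => if t ≠ 0 ∧ t ≠ 2 ∧ t ≠ 6 then (1 : ℤ) else 0))
  have hm' := hcard.symm.trans (sum_by_value A h7 (fun _ : ℕ => (1 : ℤ)))
  have hk' := hs1.symm.trans (sum_by_value A h7 (fun t : ℕ => (t : ℤ)))
  have hw' := sum_by_value A h7 (fun t : ℕ => ((t : ℤ) - 2) * ((t : ℤ) - 6))
  simp only [sum_range_succ, sum_range_zero] at hodd2 hexc2 hm' hk' hw'
  have o0 : ¬ Odd 0 := by decide
  have o1 : Odd 1 := by decide
  have o2 : ¬ Odd 2 := by decide
  have o3 : Odd 3 := by decide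
  have o4 : ¬ Odd 4 := by decide
  have o5 : Odd 5 := by decide
  have o6 : ¬ Odd 6 := by decide
  have o7 : Odd 7 := by decide
  rw [if_neg o0, if_pos o1, if_neg o2, if_pos o3, if_neg o4, if_pos o5, if_neg o6,
    if_pos o7] at hodd2
  norm_num at hexc2 hm' hk' hw' hodd2
  -- the sums over nonzero differences
  have hid := identity A
  have he0 := add_sum_erase (univ : Finset (ZMod m)) (fun n => (dif A n : ℤ))
    (mem_univ (0 : ZMod m))
  simp only [dif_zero] at he0
  rw [hd1] at he0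
  have hc0 := add_sum_erase (univ : Finset (ZMod m)) (fun _ => (1 : ℤ))
    (mem_univ (0 : ZMod m))
  rw [hcard] at hc0
  have hN4 : ((univ.filter (fun n : ZMod m => n ≠ 0 ∧ dif A n = 4)).card : ℤ)
      = ∑ n ∈ univ.erase (0 : ZMod m), (if dif A n = 4 then (1 : ℤ) else 0) := by
    have : univ.filter (fun n : ZMod m => n ≠ 0 ∧ dif A n = 4)
        = (univ.erase (0 : ZMod m)).filter (fun n => dif A n = 4) := by
      ext n
      simp [mem_filter, mem_erase]
    rw [this, card_filter]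
    push_cast
    rfl
  have hED : ((univ.filter (fun n : ZMod m => n ≠ 0 ∧ dif A n ≠ 3 ∧ dif A n ≠ 4)).card : ℤ)
      = ∑ n ∈ univ.erase (0 : ZMod m),
          (if dif A n ≠ 3 ∧ dif A n ≠ 4 then (1 : ℤ) else 0) := by
    have : univ.filter (fun n : ZMod m => n ≠ 0 ∧ dif A n ≠ 3 ∧ dif A n ≠ 4)
        = (univ.erase (0 : ZMod m)).filter (fun n => dif A n ≠ 3 ∧ dif A n ≠ 4) := by
      ext n
      simp [mem_filter, mem_erase]
    rw [this, card_filter]
    push_cast
    rfl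
  have q1 := sum_le_sum (s := univ.erase (0 : ZMod m)) (fun n _ => pt1 (dif A n))
  have q2 := sum_le_sum (s := univ.erase (0 : ZMod m)) (fun n _ => pt2 (dif A n))
  have q3 := sum_le_sum (s := univ.erase (0 : ZMod m)) (fun n _ => pt3 (dif A n))
  have q4 := sum_le_sum (s := univ.erase (0 : ZMod m)) (fun n _ => pt4 (dif A n))
  rw [← mul_sum, ← hED] at q1
  have q2' : ∑ n ∈ univ.erase (0 : ZMod m), 2 * ((dif A n : ℤ) - 4)
      = 2 * ∑ n ∈ univ.erase (0 : ZMod m), (dif A n : ℤ)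
        - 8 * ∑ _n ∈ univ.erase (0 : ZMod m), (1 : ℤ) := by
    rw [mul_sum, mul_sum, ← sum_sub_distrib]
    refine sum_congr rfl fun n _ => ?_
    ring
  have q3' : ∑ n ∈ univ.erase (0 : ZMod m),
        (((dif A n : ℤ) - 3) - (if dif A n = 4 then (1 : ℤ) else 0))
      = ∑ n ∈ univ.erase (0 : ZMod m), (dif A n : ℤ)
        - 3 * ∑ _n ∈ univ.erase (0 : ZMod m), (1 : ℤ)
        - ∑ n ∈ univ.erase (0 : ZMod m), (if dif A n = 4 then (1 : ℤ) else 0) := by
    rw [mul_sum, ← sum_sub_distrib, ← sum_sub_distrib]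
    refine sum_congr rfl fun n _ => ?_
    ring
  have q4' : ∑ n ∈ univ.erase (0 : ZMod m),
        2 * ((if dif A n = 4 then (1 : ℤ) else 0) - ((dif A n : ℤ) - 3))
      = 2 * ∑ n ∈ univ.erase (0 : ZMod m), (if dif A n = 4 then (1 : ℤ) else 0)
        - 2 * ∑ n ∈ univ.erase (0 : ZMod m), (dif A n : ℤ)
        + 6 * ∑ _n ∈ univ.erase (0 : ZMod m), (1 : ℤ) := by
    rw [mul_sum, mul_sum, mul_sum, ← sum_sub_distrib, ← sum_add_distrib]
    refine sum_congr rfl fun n _ => ?_
    ring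
  rw [q2'] at q2
  rw [q3', ← hN4] at q3
  rw [q4', ← hN4] at q4
  rw [hid] at q1 q2 q3 q4
  have hE : ((univ.filter
      (fun n : ZMod m => sig A n ≠ 0 ∧ sig A n ≠ 2 ∧ sig A n ≠ 6)).card : ℤ) = _ := hexc2
  have hsq : (A.card : ℤ) ^ 2 = (A.card : ℤ) * A.card := sq _
  have z0 : (0 : ℤ) ≤ ((univ.filter (fun n : ZMod m => sig A n = 0)).card : ℤ) :=
    Int.natCast_nonneg _
  have z1 : (0 : ℤ) ≤ ((univ.filter (fun n : ZMod m => sig A n = 1)).card : ℤ) :=
    Int.natCast_nonneg _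
  have z3 : (0 : ℤ) ≤ ((univ.filter (fun n : ZMod m => sig A n = 3)).card : ℤ) :=
    Int.natCast_nonneg _
  have z4 : (0 : ℤ) ≤ ((univ.filter (fun n : ZMod m => sig A n = 4)).card : ℤ) :=
    Int.natCast_nonneg _
  have z5 : (0 : ℤ) ≤ ((univ.filter (fun n : ZMod m => sig A n = 5)).card : ℤ) :=
    Int.natCast_nonneg _
  have z7 : (0 : ℤ) ≤ ((univ.filter (fun n : ZMod m => sig A n = 7)).card : ℤ) :=
    Int.natCast_nonneg _
  have zd : (0 : ℤ) ≤ ((univ.filter
      (fun n : ZMod m => n ≠ 0 ∧ dif A n ≠ 3 ∧ dif A n ≠ 4)).card : ℤ) :=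
    Int.natCast_nonneg _
  refine ⟨?_, ?_, ?_, ?_, ?_, ?_⟩
  · refine Int.ofNat_le.1 ?_
    simp only [Nat.cast_add, Nat.cast_mul, Nat.cast_pow, Nat.cast_ofNat]
    linarith
  · refine Int.ofNat_le.1 ?_
    simp only [Nat.cast_add, Nat.cast_mul, Nat.cast_pow, Nat.cast_ofNat]
    linarith
  · refine Int.ofNat_le.1 ?_
    simp only [Nat.cast_add, Nat.cast_mul, Nat.cast_pow, Nat.cast_ofNat]
    linarith
  · refine Int.ofNat_le.1 ?_
    simp only [Nat.cast_add, Nat.cast_mul, Nat.cast_pow, Nat.cast_ofNat]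
    linarith
  · refine Int.ofNat_le.1 ?_
    simp only [Nat.cast_add, Nat.cast_mul, Nat.cast_pow, Nat.cast_ofNat]
    linarith
  · refine Int.ofNat_le.1 ?_
    simp only [Nat.cast_add, Nat.cast_mul, Nat.cast_ofNat]
    linarith

end basic

/-- The set defining `R_m` is not empty. -/
lemma ruzsa_mem (m : ℕ) [NeZero m] :
    0 < ruzsa m ∧ ∃ A : Finset (ZMod m), ∀ n : ZMod m, 1 ≤ sig A n ∧ sig A n ≤ ruzsa m := by
  classical
  have hne : {r : ℕ | 0 < r ∧ ∃ A : Finset (ZMod m), ∀ n : ZMod m,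
      1 ≤ sig A n ∧ sig A n ≤ r}.Nonempty := by
    refine ⟨((univ : Finset (ZMod m)) ×ˢ (univ : Finset (ZMod m))).card, ?_, univ, ?_⟩
    · exact card_pos.2 ⟨(0, 0), mem_product.2 ⟨mem_univ _, mem_univ _⟩⟩
    · intro n
      refine ⟨card_pos.2 ⟨(n, 0), ?_⟩, card_filter_le _ _⟩
      rw [mem_filter, mem_product]
      exact ⟨⟨mem_univ _, mem_univ _⟩, add_zero n⟩
  exact Nat.sInf_mem hne

/-- From `k^2 + 10 <= 4 m + 7 k` to `k <= 2 sqrt m + 5`. -/
lemma card_le_sqrt {m k : ℕ} (h : k ^ 2 + 10 ≤ 4 * m + 7 * k) :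
    (k : ℝ) ≤ 2 * Real.sqrt m + 5 := by
  by_contra hlt
  push Not at hlt
  have hs : Real.sqrt m * Real.sqrt m = m := Real.mul_self_sqrt (Nat.cast_nonneg m)
  have hs0 : 0 ≤ Real.sqrt m := Real.sqrt_nonneg _
  have h' : (k : ℝ) ^ 2 + 10 ≤ 4 * m + 7 * k := by exact_mod_cast h
  nlinarith [mul_pos (sub_pos.2 hlt) (sub_pos.2 hlt)]

/-- **Result.**  For every `m >= 1` and every `A` in `Z_m` with all `sig A n <= 7`, six
explicit inequalities in `k = |A|` and the number `u` of residues with `sig A n = 0`; and,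
when `R_m <= 7`, the structure of every extremal set. -/
theorem result (m : ℕ) [NeZero m] :
    (∀ A : Finset (ZMod m), (∀ n, sig A n ≤ 7) →
      3 * m + (univ.filter (fun n : ZMod m => n ≠ 0 ∧ dif A n = 4)).card + 3
          ≤ A.card ^ 2 + 5 * A.card + 6 * (univ.filter (fun n : ZMod m => sig A n = 0)).card ∧
      A.card ^ 2 + 15
          ≤ 3 * m + (univ.filter (fun n : ZMod m => n ≠ 0 ∧ dif A n = 4)).card
            + 13 * A.card + 12 * (univ.filter (fun n : ZMod m => sig A n = 0)).card ∧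
      2 * m + 4 * (univ.filter (fun n : ZMod m => sig A n = 6)).card
          ≤ A.card ^ 2 + A.card + 2 * (univ.filter (fun n : ZMod m => sig A n = 0)).card ∧
      A.card ^ 2 + 6
          ≤ 2 * m + 4 * (univ.filter (fun n : ZMod m => sig A n = 6)).card
            + 11 * A.card + 6 * (univ.filter (fun n : ZMod m => sig A n = 0)).card ∧
      A.card ^ 2 + 10
          ≤ 4 * m + 7 * A.card + 6 * (univ.filter (fun n : ZMod m => sig A n = 0)).card ∧
      2 * (univ.filter (fun n : ZMod m => sig A n ≠ 0 ∧ sig A n ≠ 2 ∧ sig A n ≠ 6)).card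
          + (univ.filter (fun n : ZMod m => n ≠ 0 ∧ dif A n ≠ 3 ∧ dif A n ≠ 4)).card + 6
          ≤ 8 * A.card + 6 * (univ.filter (fun n : ZMod m => sig A n = 0)).card) ∧
    (ruzsa m ≤ 7 →
      (∃ A : Finset (ZMod m), ∀ n, 1 ≤ sig A n ∧ sig A n ≤ ruzsa m) ∧
      ∀ A : Finset (ZMod m), (∀ n, 1 ≤ sig A n ∧ sig A n ≤ ruzsa m) →
        3 * m + 3 ≤ A.card ^ 2 + 5 * A.card ∧
        A.card ^ 2 + 10 ≤ 4 * m + 7 * A.card ∧
        ((univ.filter (fun n : ZMod m => sig A n ≠ 2 ∧ sig A n ≠ 6)).card : ℝ)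
          ≤ 8 * Real.sqrt m + 17 ∧
        ((univ.filter (fun n : ZMod m => n ≠ 0 ∧ dif A n ≠ 3 ∧ dif A n ≠ 4)).card : ℝ)
          ≤ 16 * Real.sqrt m + 34) := by
  classical
  refine ⟨fun A h7 => near A h7, fun hR => ⟨(ruzsa_mem m).2, fun A hA => ?_⟩⟩
  obtain ⟨h1, -, -, -, h5, h6⟩ := near A (fun n => (hA n).2.trans hR)
  have hu : (univ.filter (fun n : ZMod m => sig A n = 0)).card = 0 := by
    rw [card_eq_zero, filter_eq_empty_iff]
    intro n _ h0
    have := (hA n).1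
    omega
  have hE : univ.filter (fun n : ZMod m => sig A n ≠ 0 ∧ sig A n ≠ 2 ∧ sig A n ≠ 6)
      = univ.filter (fun n : ZMod m => sig A n ≠ 2 ∧ sig A n ≠ 6) := by
    refine filter_congr fun n _ => ?_
    have := (hA n).1
    constructor
    · exact fun h => h.2
    · exact fun h => ⟨by omega, h⟩
  rw [hu] at h1 h5 h6
  rw [hE] at h6
  have h5' : A.card ^ 2 + 10 ≤ 4 * m + 7 * A.card := by omega
  have hk := card_le_sqrt h5'
  refine ⟨by omega, h5', ?_, ?_⟩
  · have h6' : (univ.filter (fun n : ZMod m => sig A n ≠ 2 ∧ sig A n ≠ 6)).card + 3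
        ≤ 4 * A.card := by omega
    have h6r : ((univ.filter (fun n : ZMod m => sig A n ≠ 2 ∧ sig A n ≠ 6)).card : ℝ) + 3
        ≤ 4 * A.card := by exact_mod_cast h6'
    linarith
  · have h6' : (univ.filter (fun n : ZMod m => n ≠ 0 ∧ dif A n ≠ 3 ∧ dif A n ≠ 4)).card + 6
        ≤ 8 * A.card := by omega
    have h6r : ((univ.filter
        (fun n : ZMod m => n ≠ 0 ∧ dif A n ≠ 3 ∧ dif A n ≠ 4)).card : ℝ) + 6
        ≤ 8 * A.card := by exact_mod_cast h6'
    linarith

end Pool.Agent.Results.MP_70f15f_nt.NearDesign
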